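import Mathlib

/-!
Infinite words assembled from finite blocks.
-/

namespace Pool.Agent.helper40

variable {α : Type*}

/-- Concatenation of the first `n` blocks `B 0, …, B (n-1)`. -/
def wordUpTo (B : ℕ → List α) : ℕ → List α
  | 0 => []
  | n + 1 => wordUpTo B n ++ B n

theorem wordUpTo_isPrefix (B : ℕ → List α) {m n : ℕ} (h : m ≤ n) :
    wordUpTo B m <+: wordUpTo B n := by
  induction n with
  | zero =>
    have : m = 0 := by omega
    subst this
    exact List.prefix_rfl
  | succ n ih =>
    rcases Nat.lt_or_ge m (n + 1) with h1 | h1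
    · exact (ih (by omega)).trans (List.prefix_append _ _)
    · have : m = n + 1 := by omega
      subst this
      exact List.prefix_rfl

theorem length_wordUpTo_ge (B : ℕ → List α) (hB : ∀ n, B n ≠ []) (n : ℕ) :
    n ≤ (wordUpTo B n).length := by
  induction n with
  | zero => simp
  | succ n ih =>
    have h1 : 0 < (B n).length := List.length_pos_of_ne_nil (hB n)
    simp only [wordUpTo, List.length_append]
    omega

/-- The infinite word with blocks `B 0, B 1, …`. -/
def infWord (B : ℕ → List α) (d : α) (k : ℕ) : α := (wordUpTo B (k + 1)).getD k d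

theorem ofFn_infWord (B : ℕ → List α) (hB : ∀ n, B n ≠ []) (d : α) (n : ℕ) :
    List.ofFn (fun i : Fin (wordUpTo B n).length => infWord B d i) = wordUpTo B n := by
  apply List.ext_getElem
  · simp
  · intro i h1 h2
    simp only [List.getElem_ofFn]
    have hlen : i < (wordUpTo B (i + 1)).length := by
      have := length_wordUpTo_ge B hB (i + 1)
      omega
    unfold infWord
    rw [List.getD_eq_getElem _ _ hlen]
    rcases le_total (i + 1) n with h | h
    · exact (wordUpTo_isPrefix B h).getElem hlen
    · exact ((wordUpTo_isPrefix B h).getElem h2).symm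

theorem mem_wordUpTo (B : ℕ → List α) {n : ℕ} {x : α} (h : x ∈ wordUpTo B n) :
    ∃ m, x ∈ B m := by
  induction n with
  | zero => simp [wordUpTo] at h
  | succ n ih =>
    simp only [wordUpTo, List.mem_append] at h
    rcases h with h | h
    · exact ih h
    · exact ⟨n, h⟩

theorem infWord_mem (B : ℕ → List α) (hB : ∀ n, B n ≠ []) (d : α) (k : ℕ) :
    ∃ m, infWord B d k ∈ B m := by
  have hlen : k < (wordUpTo B (k + 1)).length := by
    have := length_wordUpTo_ge B hB (k + 1)
    omega
  unfold infWord
  rw [List.getD_eq_getElem _ _ hlen]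
  exact mem_wordUpTo B (List.getElem_mem hlen)

theorem length_wordUpTo_tendsto (B : ℕ → List α) (hB : ∀ n, B n ≠ []) :
    Filter.Tendsto (fun n => (wordUpTo B n).length) Filter.atTop Filter.atTop :=
  Filter.tendsto_atTop_mono (length_wordUpTo_ge B hB) Filter.tendsto_id

end Pool.Agent.helper40
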