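import Mathlib

/-!
Continued fractions of types A and B on the Riemann sphere `OnePoint ℂ`, their value sets and
convergence sets.
-/

namespace Pool.Agent.helper40

open Filter Topology

/-- The map `w ↦ 1 / (b + w)` of the Riemann sphere `OnePoint ℂ` to itself: the point at
infinity goes to `0`, and `w = -b` goes to the point at infinity. -/
noncomputable def stepB (b : ℂ) (w : OnePoint ℂ) : OnePoint ℂ :=
  OnePoint.elim w ((0 : ℂ) : OnePoint ℂ)
    (fun w => if b + w = 0 then OnePoint.infty else (((b + w)⁻¹ : ℂ) : OnePoint ℂ))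

/-- The value `s_{b₁} (s_{b₂} (⋯ s_{bₙ} 0))` of the finite continued fraction
`1/(b₁ + 1/(b₂ + ⋯ + 1/bₙ))` with elements `[b₁, …, bₙ]`. -/
noncomputable def valueB (l : List ℂ) : OnePoint ℂ := l.foldr stepB ((0 : ℂ) : OnePoint ℂ)

/-- The set of all values of finite type-B continued fractions (with at least one element) all of
whose elements lie in `E` is a bounded set of complex numbers. -/
def BoundedValuesB (E : Set ℂ) : Prop :=
  ∃ M : ℝ, ∀ l : List ℂ, l ≠ [] → (∀ b ∈ l, b ∈ E) →
    ∃ z : ℂ, valueB l = (z : OnePoint ℂ) ∧ ‖z‖ ≤ M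

/-- `E` is a type-B convergence set: for every sequence `b` in `E` the approximants tend to a
finite limit. -/
def ConvergenceSetB (E : Set ℂ) : Prop :=
  ∀ b : ℕ → ℂ, (∀ n, b n ∈ E) →
    ∃ L : ℂ, Tendsto (fun n : ℕ => valueB (List.ofFn (fun i : Fin n => b i))) atTop
      (𝓝 (L : OnePoint ℂ))

end Pool.Agent.helper40
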