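import Mathlib
import Pool.Agent.helper40.CFDefs

namespace Pool.Agent.helper40

open Filter Topology Complex

theorem disc_sep {x u a b d e : ℝ} (ha : 0 ≤ a) (hb : 0 ≤ b) (h1 : x ^ 2 + u ^ 2 ≤ a ^ 2)
    (h2 : (a + b) ^ 2 ≤ d ^ 2 + e ^ 2) : b ^ 2 ≤ (x + d) ^ 2 + (u + e) ^ 2 := by
  set z : ℂ := ⟨x, u⟩ with hz
  set w : ℂ := ⟨d, e⟩ with hw
  have hz1 : ‖z‖ ≤ a := by
    apply le_of_sq_le_sq _ ha
    rw [Complex.sq_norm, Complex.normSq_apply]
    simp only [hz]
    nlinarith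
  have hw1 : a + b ≤ ‖w‖ := by
    apply le_of_sq_le_sq _ (norm_nonneg _)
    rw [Complex.sq_norm, Complex.normSq_apply]
    simp only [hw]
    nlinarith
  have h3 : b ≤ ‖z + w‖ := by
    have := norm_sub_le (z + w) z
    have h4 : z + w - z = w := by ring
    rw [h4] at this
    linarith
  have h4 : b ^ 2 ≤ ‖z + w‖ ^ 2 := by
    exact pow_le_pow_left₀ hb h3 2
  rw [Complex.sq_norm, Complex.normSq_apply] at h4
  simp only [hz, hw, Complex.add_re, Complex.add_im] at h4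
  nlinarith

/-- `|q z - i p|²` for `z = x + i y`. -/
def NN (p q : ℤ) (x y : ℝ) : ℝ := (q * x) ^ 2 + (q * y - p) ^ 2

/-- The left part of the invariant set. -/
def DL (x y : ℝ) : Prop := ∃ p q : ℤ, Odd (p + q) ∧ |p| < |q| ∧ 3 * NN p q x y ≤ -x

/-- The condition to lie outside the discs. -/
def DR (x y : ℝ) : Prop := 0 ≤ x ∧ ∀ p q : ℤ, Odd (p + q) → |q| < |p| → x ≤ 3 * NN p q x y

/-- The condition to lie in the union of discs. -/
def DM (x y : ℝ) : Prop := ∃ t : ℝ, (t = -3 ∨ |t| ≤ 1) ∧ x ^ 2 + (y - t) ^ 2 ≤ 4 * x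

/-- The invariant set. -/
def DD (x y : ℝ) : Prop := DL x y ∨ (DR x y ∧ DM x y)

theorem DD_zero : DD 0 0 := by
  right
  refine ⟨⟨le_refl _, ?_⟩, 0, Or.inr (by simp), by simp⟩
  intro p q _ _
  unfold NN
  positivity

theorem one_le_sq_of_abs_lt {p q : ℤ} (h : |p| < |q|) : (1 : ℝ) ≤ (q : ℝ) ^ 2 := by
  have h1 : (0 : ℤ) < |q| := lt_of_le_of_lt (abs_nonneg p) h
  have h2 : (1 : ℤ) ≤ q ^ 2 := by
    rw [← sq_abs]
    nlinarith
  exact_mod_cast h2

theorem DL_neg {x y : ℝ} (h : DL x y) : x ≤ 0 ∧ -(1 / 3) ≤ x := by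
  obtain ⟨p, q, hodd, hpq, h⟩ := h
  unfold NN at h
  have hq := one_le_sq_of_abs_lt hpq
  have h1 : 0 ≤ ((q : ℝ) * y - p) ^ 2 := sq_nonneg _
  have h2 : x ^ 2 ≤ (q * x) ^ 2 := by
    rw [mul_pow]
    nlinarith [sq_nonneg x]
  constructor
  · nlinarith [sq_nonneg x]
  · by_contra hx
    push Not at hx
    nlinarith

theorem DD_le_three {x y : ℝ} (h : DD x y) : x ≤ 3 := by
  rcases h with h | ⟨⟨h0, h⟩, _⟩
  · linarith [(DL_neg h).1]
  · have := h 1 0 (by decide) (by decide)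
    unfold NN at this
    norm_num at this
    exact this

/-- The set is bounded. -/
theorem DD_bound {x y : ℝ} (h : DD x y) : |x| ≤ 4 ∧ |y| ≤ 5 := by
  rcases h with h | ⟨_, t, ht, hM⟩
  · have h0 := DL_neg h
    obtain ⟨p, q, hodd, hpq, h⟩ := h
    unfold NN at h
    have hq := one_le_sq_of_abs_lt hpq
    constructor
    · rw [abs_le]
      constructor <;> linarith
    · have h1 : (q * y - p) ^ 2 ≤ 1 := by
        nlinarith [sq_nonneg ((q : ℝ) * x)]
      have h2 : |(q : ℝ) * y - p| ≤ 1 := by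
        rw [← sq_le_one_iff_abs_le_one]
        exact h1
      have h3 : |(p : ℝ)| < |(q : ℝ)| := by exact_mod_cast hpq
      have h4 : |(q : ℝ) * y| ≤ |(q : ℝ)| + 1 := by
        calc |(q : ℝ) * y| = |((q : ℝ) * y - p) + p| := by ring_nf
          _ ≤ |(q : ℝ) * y - p| + |(p : ℝ)| := abs_add_le _ _
          _ ≤ |(q : ℝ)| + 1 := by linarith
      rw [abs_mul] at h4
      have h5 : 1 ≤ |(q : ℝ)| := by
        have h6 : (1 : ℤ) ≤ |q| := by
          have := abs_nonneg p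
          omega
        exact_mod_cast h6
      by_contra hy
      push Not at hy
      nlinarith
  · have hx0 : 0 ≤ x := by nlinarith [sq_nonneg x, sq_nonneg (y - t)]
    have hx4 : x ≤ 4 := by
      by_contra hx
      push Not at hx
      nlinarith [sq_nonneg (y - t)]
    have h1 : (y - t) ^ 2 ≤ 2 ^ 2 := by nlinarith [sq_nonneg (x - 2)]
    have h2 : |y - t| ≤ 2 := by
      exact abs_le_of_sq_le_sq h1 (by norm_num)
    have h3 : |t| ≤ 3 := by
      rcases ht with ht | ht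
      · rw [ht]; norm_num
      · linarith
    constructor
    · rw [abs_le]
      constructor <;> linarith
    · calc |y| = |(y - t) + t| := by ring_nf
        _ ≤ |y - t| + |t| := abs_add_le _ _
        _ ≤ 5 := by linarith

/-- Transformation of `NN` under `z ↦ 1/w`. -/
theorem NN_inv (p q : ℤ) {X Y : ℝ} (hs : 0 < X ^ 2 + Y ^ 2) :
    NN p q (X / (X ^ 2 + Y ^ 2)) (-Y / (X ^ 2 + Y ^ 2)) =
      ((p * X) ^ 2 + (p * Y + q) ^ 2) / (X ^ 2 + Y ^ 2) := by
  unfold NN
  field_simp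
  ring

theorem abs_lt_aux {p q k : ℤ} (hk : k = 1 ∨ k = -1) (h : |p| < |q|) :
    |q| < |-p - 2 * k * q| := by
  have h0 : |-p - 2 * k * q| = |p + 2 * k * q| := by
    rw [← abs_neg]
    ring_nf
  rw [h0]
  rcases hk with hk | hk
  · rw [hk, mul_one]
    rcases abs_cases p with h1 | h1 <;> rcases abs_cases q with h2 | h2 <;>
      rcases abs_cases (p + 2 * q) with h3 | h3 <;> omega
  · have h4 : p + 2 * k * q = p - 2 * q := by rw [hk]; ring
    rw [h4]
    rcases abs_cases p with h1 | h1 <;> rcases abs_cases q with h2 | h2 <;>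
      rcases abs_cases (p - 2 * q) with h3 | h3 <;> omega

theorem inv_key {X Y t : ℝ} (hs : 0 < X ^ 2 + Y ^ 2) (ht : t ≠ 0) :
    (X / (X ^ 2 + Y ^ 2)) ^ 2 + (-Y / (X ^ 2 + Y ^ 2) - -1 / t) ^ 2 =
      (X ^ 2 + (Y - t) ^ 2) / ((X ^ 2 + Y ^ 2) * t ^ 2) := by
  field_simp
  ring

theorem inv_key0 {X Y : ℝ} (hs : 0 < X ^ 2 + Y ^ 2) :
    (X / (X ^ 2 + Y ^ 2)) ^ 2 + (-Y / (X ^ 2 + Y ^ 2) - 0) ^ 2 = 1 / (X ^ 2 + Y ^ 2) := by
  field_simp
  ring

/-- The letters `±2i`. -/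
theorem DD_step_two {x y : ℝ} (h : DD x y) (k : ℤ) (hk : k = 1 ∨ k = -1) :
    0 < x ^ 2 + (y + 2 * k) ^ 2 ∧
      DD (x / (x ^ 2 + (y + 2 * k) ^ 2)) (-(y + 2 * k) / (x ^ 2 + (y + 2 * k) ^ 2)) := by
  have hkR : (k : ℝ) = 1 ∨ (k : ℝ) = -1 := by
    rcases hk with hk | hk <;> simp [hk]
  rcases h with h | ⟨⟨hx, hR⟩, t, ht, hM⟩
  · obtain ⟨p, q, hodd, hpq, h⟩ := h
    have hq := one_le_sq_of_abs_lt hpq
    have hq1 : (1 : ℝ) ≤ |(q : ℝ)| := by
      have h6 : (1 : ℤ) ≤ |q| := by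
        have := abs_nonneg p
        omega
      exact_mod_cast h6
    have hpqR : |(p : ℝ)| < |(q : ℝ)| := by exact_mod_cast hpq
    have hs : 0 < x ^ 2 + (y + 2 * k) ^ 2 := by
      by_contra hs
      push Not at hs
      have hx0 : x = 0 := by nlinarith [sq_nonneg x, sq_nonneg (y + 2 * k)]
      have hy0 : y = -2 * k := by nlinarith [sq_nonneg x, sq_nonneg (y + 2 * k)]
      unfold NN at h
      rw [hx0, hy0] at h
      have h1 : (q * (-2 * k) - p : ℝ) = 0 := by
        nlinarith [sq_nonneg (q * (-2 * k) - p : ℝ)]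
      have h2 : |(p : ℝ)| = 2 * |(q : ℝ)| := by
        have h3 : (p : ℝ) = q * (-2 * k) := by linarith
        rw [h3, abs_mul, abs_mul]
        rcases hkR with hk | hk <;> rw [hk] <;> norm_num <;> ring
      linarith
    refine ⟨hs, Or.inl ⟨q, -p - 2 * k * q, ?_, ?_, ?_⟩⟩
    · rw [Int.odd_iff] at hodd ⊢
      rcases hk with hk | hk <;> subst hk <;> omega
    · exact abs_lt_aux hk hpq
    · rw [NN_inv _ _ hs, ← mul_div_assoc, ← neg_div]
      apply div_le_div_of_nonneg_right _ hs.le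
      unfold NN at h
      push_cast
      linarith
  · have hs : 0 < x ^ 2 + (y + 2 * k) ^ 2 := by
      by_contra hs
      push Not at hs
      have hx0 : x = 0 := by nlinarith [sq_nonneg x, sq_nonneg (y + 2 * k)]
      have hy0 : y = -2 * k := by nlinarith [sq_nonneg x, sq_nonneg (y + 2 * k)]
      rw [hx0] at hM
      have h1 : y = t := by nlinarith [sq_nonneg (y - t)]
      rcases ht with ht | ht
      · rcases hkR with hk | hk <;> rw [hk] at hy0 <;> linarith
      · rw [abs_le] at ht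
        rcases hkR with hk | hk <;> rw [hk] at hy0 <;> linarith
    refine ⟨hs, Or.inr ⟨⟨by positivity, ?_⟩, ?_⟩⟩
    · intro p q hodd hpq
      rw [NN_inv _ _ hs, ← mul_div_assoc]
      apply div_le_div_of_nonneg_right _ hs.le
      have hodd' : Odd ((-q - 2 * k * p) + p) := by
        rw [Int.odd_iff] at hodd ⊢
        rcases hk with hk | hk <;> subst hk <;> omega
      have hlt : |p| < |-q - 2 * k * p| := abs_lt_aux hk hpq
      have h1 := hR _ _ hodd' hlt
      unfold NN at h1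
      push_cast at h1
      linarith
    · have ht2 : 1 ≤ (t + 2 * k) ^ 2 := by
        rcases ht with ht | ht
        · rcases hkR with hk | hk <;> rw [hk, ht] <;> norm_num
        · rw [abs_le] at ht
          rcases hkR with hk | hk <;> rw [hk] <;> nlinarith
      have ht0 : t + 2 * k ≠ 0 := by
        intro h0
        rw [h0] at ht2
        norm_num at ht2
      refine ⟨-1 / (t + 2 * k), Or.inr ?_, ?_⟩
      · rw [abs_div, abs_neg, abs_one, div_le_one (abs_pos.mpr ht0)]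
        rw [← sq_abs] at ht2
        by_contra hlt
        push Not at hlt
        nlinarith [abs_nonneg (t + 2 * k)]
      · have key : (x / (x ^ 2 + (y + 2 * k) ^ 2)) ^ 2 +
            (-(y + 2 * k) / (x ^ 2 + (y + 2 * k) ^ 2) - -1 / (t + 2 * k)) ^ 2 =
            (x ^ 2 + (y - t) ^ 2) / ((x ^ 2 + (y + 2 * k) ^ 2) * (t + 2 * k) ^ 2) := by
          field_simp
          ring
        rw [key, ← mul_div_assoc]
        have hx2 : (x ^ 2 + (y - t) ^ 2) / ((x ^ 2 + (y + 2 * k) ^ 2) * (t + 2 * k) ^ 2) ≤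
            (4 * x) / ((x ^ 2 + (y + 2 * k) ^ 2) * (t + 2 * k) ^ 2) := by
          apply div_le_div_of_nonneg_right hM (by positivity)
        refine hx2.trans ?_
        apply div_le_div_of_nonneg_left (by positivity) hs
        nlinarith

/-- The letter `-6`. -/
theorem DD_step_six {x y : ℝ} (h : DD x y) :
    0 < (x - 6) ^ 2 + y ^ 2 ∧
      DD ((x - 6) / ((x - 6) ^ 2 + y ^ 2)) (-y / ((x - 6) ^ 2 + y ^ 2)) := by
  have h3 := DD_le_three h
  have hs : 0 < (x - 6) ^ 2 + y ^ 2 := by nlinarith [sq_nonneg y]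
  refine ⟨hs, Or.inl ⟨0, 1, by decide, by decide, ?_⟩⟩
  rw [NN_inv _ _ hs, ← mul_div_assoc, ← neg_div]
  apply div_le_div_of_nonneg_right _ hs.le
  push_cast
  nlinarith

/-- The discs argument. -/
theorem DR_of_DL {x y : ℝ} (h : DL x y) (m : ℤ) (hm : Odd m) (P Q : ℤ) (hodd : Odd (P + Q))
    (hPQ : |P| < |Q|) : x + 1 / 3 ≤ 3 * NN P Q (x + 1 / 3) (y + m / 3) := by
  obtain ⟨p, q, hodd', hpq, h⟩ := h
  unfold NN at h ⊢
  have hq := one_le_sq_of_abs_lt hpq
  have hQ := one_le_sq_of_abs_lt hPQ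
  have hq0 : (q : ℝ) ≠ 0 := by
    intro h0
    rw [h0] at hq
    norm_num at hq
  have hQ0 : (Q : ℝ) ≠ 0 := by
    intro h0
    rw [h0] at hQ
    norm_num at hQ
  have h1 : (x + 1 / (6 * (q : ℝ) ^ 2)) ^ 2 + (y - p / q) ^ 2 ≤ (1 / (6 * (q : ℝ) ^ 2)) ^ 2 := by
    have : 0 ≤ (1 / (6 * (q : ℝ) ^ 2)) ^ 2 - ((x + 1 / (6 * (q : ℝ) ^ 2)) ^ 2 + (y - p / q) ^ 2) := by
      have h2 : (1 / (6 * (q : ℝ) ^ 2)) ^ 2 - ((x + 1 / (6 * (q : ℝ) ^ 2)) ^ 2 + (y - p / q) ^ 2) =
        (-x - 3 * ((q * x) ^ 2 + (q * y - p) ^ 2)) / (3 * (q : ℝ) ^ 2) := by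
        field_simp
        ring
      rw [h2]
      apply div_nonneg (by linarith) (by positivity)
    linarith
  have hC : 0 ≤ 1 / 9 * (1 - 1 / (q : ℝ) ^ 2 - 1 / (Q : ℝ) ^ 2) +
      ((p : ℝ) / q + m / 3 - P / Q) ^ 2 := by
    have hcase : (4 ≤ (q : ℝ) ^ 2 ∧ 4 ≤ (Q : ℝ) ^ 2) ∨ (q ^ 2 = 1 ∧ p = 0) ∨
      (Q ^ 2 = 1 ∧ P = 0) := by
      rcases lt_or_ge (|q|) 2 with hq2 | hq2
      · right; left
        have hp : p = 0 := by
          rcases abs_cases p with h1 | h1 <;> omega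
        have hq1 : |q| = 1 := by
          subst hp
          simp at hpq
          have : 0 < |q| := abs_pos.mpr hpq
          omega
        exact ⟨by rw [← sq_abs, hq1]; norm_num, hp⟩
      · rcases lt_or_ge (|Q|) 2 with hQ2 | hQ2
        · right; right
          have hp : P = 0 := by
            rcases abs_cases P with h1 | h1 <;> omega
          have hq1 : |Q| = 1 := by
            subst hp
            simp at hPQ
            have : 0 < |Q| := abs_pos.mpr hPQ
            omega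
          exact ⟨by rw [← sq_abs, hq1]; norm_num, hp⟩
        · left
          constructor
          · have : (4 : ℤ) ≤ q ^ 2 := by rw [← sq_abs]; nlinarith
            exact_mod_cast this
          · have : (4 : ℤ) ≤ Q ^ 2 := by rw [← sq_abs]; nlinarith
            exact_mod_cast this
    rcases hcase with ⟨h4, h5⟩ | ⟨h4, h5⟩ | ⟨h4, h5⟩
    · have h6 : 1 / (q : ℝ) ^ 2 ≤ 1 / 4 := one_div_le_one_div_of_le (by norm_num) h4
      have h7 : 1 / (Q : ℝ) ^ 2 ≤ 1 / 4 := one_div_le_one_div_of_le (by norm_num) h5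
      have h8 : 0 ≤ ((p : ℝ) / q + m / 3 - P / Q) ^ 2 := sq_nonneg _
      linarith
    · have h4' : (q : ℝ) ^ 2 = 1 := by exact_mod_cast h4
      have h9 : Odd (m * Q - 3 * P) := by
        rw [Int.odd_iff] at hodd hm ⊢
        have : (m * Q - 3 * P) % 2 = ((m % 2) * (Q % 2) - 3 * P) % 2 := by
          simp [Int.sub_emod, Int.mul_emod]
        rw [this, hm]
        omega
      have h10 : (1 : ℤ) ≤ (m * Q - 3 * P) ^ 2 := by
        have : m * Q - 3 * P ≠ 0 := by
          intro h0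
          rw [h0] at h9
          exact absurd h9 (by decide)
        have : 0 < (m * Q - 3 * P) ^ 2 := by positivity
        omega
      have h11 : (1 : ℝ) ≤ ((m : ℝ) * Q - 3 * P) ^ 2 := by exact_mod_cast h10
      rw [h5, h4']
      have h12 : 1 / 9 * (1 - 1 / 1 - 1 / (Q : ℝ) ^ 2) + (((0 : ℤ) : ℝ) / q + m / 3 - P / Q) ^ 2 =
        (((m : ℝ) * Q - 3 * P) ^ 2 - 1) / (9 * Q ^ 2) := by
        push_cast
        field_simp
        ring
      rw [h12]
      apply div_nonneg (by linarith) (by positivity)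
    · have h4' : (Q : ℝ) ^ 2 = 1 := by exact_mod_cast h4
      have h9 : Odd (3 * p + m * q) := by
        rw [Int.odd_iff] at hodd' hm ⊢
        have : (3 * p + m * q) % 2 = (3 * p + (m % 2) * (q % 2)) % 2 := by
          simp [Int.add_emod, Int.mul_emod]
        rw [this, hm]
        omega
      have h10 : (1 : ℤ) ≤ (3 * p + m * q) ^ 2 := by
        have : 3 * p + m * q ≠ 0 := by
          intro h0
          rw [h0] at h9
          exact absurd h9 (by decide)
        have : 0 < (3 * p + m * q) ^ 2 := by positivity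
        omega
      have h11 : (1 : ℝ) ≤ (3 * (p : ℝ) + m * q) ^ 2 := by exact_mod_cast h10
      rw [h5, h4']
      have h12 : 1 / 9 * (1 - 1 / (q : ℝ) ^ 2 - 1 / 1) + ((p : ℝ) / q + m / 3 - ((0 : ℤ) : ℝ) / Q) ^ 2 =
        ((3 * (p : ℝ) + m * q) ^ 2 - 1) / (9 * q ^ 2) := by
        push_cast
        field_simp
        ring
      rw [h12]
      apply div_nonneg (by linarith) (by positivity)
  have h2 := disc_sep (x := x + 1 / (6 * (q : ℝ) ^ 2)) (u := y - p / q)
    (a := 1 / (6 * (q : ℝ) ^ 2)) (b := 1 / (6 * (Q : ℝ) ^ 2))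
    (d := 1 / 3 - 1 / (6 * (q : ℝ) ^ 2) - 1 / (6 * (Q : ℝ) ^ 2)) (e := (p : ℝ) / q + m / 3 - P / Q)
    (by positivity) (by positivity) h1 (by
      have : (1 / 3 - 1 / (6 * (q : ℝ) ^ 2) - 1 / (6 * (Q : ℝ) ^ 2)) ^ 2 +
        ((p : ℝ) / q + m / 3 - P / Q) ^ 2 - (1 / (6 * (q : ℝ) ^ 2) + 1 / (6 * (Q : ℝ) ^ 2)) ^ 2 =
        1 / 9 * (1 - 1 / (q : ℝ) ^ 2 - 1 / (Q : ℝ) ^ 2) + ((p : ℝ) / q + m / 3 - P / Q) ^ 2 := by
        field_simp
        ring
      linarith)
  have h3 : x + 1 / (6 * (q : ℝ) ^ 2) + (1 / 3 - 1 / (6 * (q : ℝ) ^ 2) - 1 / (6 * (Q : ℝ) ^ 2)) =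
    x + 1 / 3 - 1 / (6 * (Q : ℝ) ^ 2) := by ring
  have h4 : y - p / q + ((p : ℝ) / q + m / 3 - P / Q) = y + m / 3 - P / Q := by ring
  rw [h3, h4] at h2
  have h5 : 3 * ((Q * (x + 1 / 3)) ^ 2 + (Q * (y + m / 3) - P) ^ 2) - (x + 1 / 3) =
    3 * (Q : ℝ) ^ 2 * ((x + 1 / 3 - 1 / (6 * (Q : ℝ) ^ 2)) ^ 2 + (y + m / 3 - P / Q) ^ 2 -
      (1 / (6 * (Q : ℝ) ^ 2)) ^ 2) := by
    field_simp
    ring
  have h6 : 0 ≤ 3 * (Q : ℝ) ^ 2 * ((x + 1 / 3 - 1 / (6 * (Q : ℝ) ^ 2)) ^ 2 +
    (y + m / 3 - P / Q) ^ 2 - (1 / (6 * (Q : ℝ) ^ 2)) ^ 2) := by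
    apply mul_nonneg (by positivity)
    linarith
  linarith

/-- The letters `1/3 + i m/3`, `m ∈ {3, -3, 1}`. -/
theorem DD_step_third {x y : ℝ} (h : DD x y) (m : ℤ) (hm : m = 3 ∨ m = -3 ∨ m = 1) :
    0 < (x + 1 / 3) ^ 2 + (y + m / 3) ^ 2 ∧
      DD ((x + 1 / 3) / ((x + 1 / 3) ^ 2 + (y + m / 3) ^ 2))
        (-(y + m / 3) / ((x + 1 / 3) ^ 2 + (y + m / 3) ^ 2)) := by
  have hmodd : Odd m := by rcases hm with hm | hm | hm <;> subst hm <;> decide
  have hmR : (m : ℝ) = 3 ∨ (m : ℝ) = -3 ∨ (m : ℝ) = 1 := by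
    rcases hm with hm | hm | hm <;> subst hm <;> simp
  have hm1 : 1 ≤ (m : ℝ) ^ 2 := by
    rcases hmR with hm | hm | hm <;> rw [hm] <;> norm_num
  have hx0 : 0 ≤ x + 1 / 3 := by
    rcases h with h | ⟨⟨h, _⟩, _⟩
    · linarith [(DL_neg h).2]
    · linarith
  have hcase : -(1 / 12) ≤ x ∨ 3 * (x ^ 2 + y ^ 2) ≤ -x := by
    rcases le_or_gt (-(1 / 12)) x with h1 | h1
    · left; exact h1
    · right
      rcases h with h | ⟨⟨h, _⟩, _⟩
      · obtain ⟨p, q, hodd, hpq, h⟩ := h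
        have hq4 : (q : ℝ) ^ 2 < 4 := by
          unfold NN at h
          by_contra h4
          push Not at h4
          have h5 : 4 * x ^ 2 ≤ (q * x) ^ 2 := by
            rw [mul_pow]
            nlinarith [sq_nonneg x]
          nlinarith [sq_nonneg ((q : ℝ) * y - p)]
        have hq4' : q ^ 2 < 4 := by exact_mod_cast hq4
        have hq2 : |q| < 2 := by
          rw [← sq_abs] at hq4'
          nlinarith [abs_nonneg q]
        have hp : p = 0 := by
          rcases abs_cases p with h1 | h1 <;> omega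
        have hq1 : |q| = 1 := by
          subst hp
          simp at hpq
          have : 0 < |q| := abs_pos.mpr hpq
          omega
        have hq1' : (q : ℝ) ^ 2 = 1 := by
          have : q ^ 2 = 1 := by rw [← sq_abs, hq1]; norm_num
          exact_mod_cast this
        unfold NN at h
        rw [hp] at h
        push_cast at h
        rw [sub_zero, mul_pow, mul_pow, hq1'] at h
        linarith
      · linarith
  have hs : 0 < (x + 1 / 3) ^ 2 + (y + m / 3) ^ 2 := by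
    rcases hcase with h1 | h1
    · have : 0 < x + 1 / 3 := by linarith
      positivity
    · by_contra h2
      push Not at h2
      have h3 : x = -(1 / 3) := by nlinarith [sq_nonneg (x + 1 / 3), sq_nonneg (y + m / 3)]
      have h4 : y = - m / 3 := by nlinarith [sq_nonneg (x + 1 / 3), sq_nonneg (y + m / 3)]
      rw [h3, h4] at h1
      nlinarith
  refine ⟨hs, Or.inr ⟨⟨by positivity, ?_⟩, ?_⟩⟩
  · intro p q hodd hpq
    rw [NN_inv _ _ hs, ← mul_div_assoc]
    apply div_le_div_of_nonneg_right _ hs.le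
    have h1 : x + 1 / 3 ≤ 3 * NN (-q) p (x + 1 / 3) (y + m / 3) := by
      have hodd' : Odd (-q + p) := by
        rw [Int.odd_iff] at hodd ⊢
        omega
      have hpq' : |-q| < |p| := by rwa [abs_neg]
      rcases h with h | ⟨⟨h, _⟩, _⟩
      · exact DR_of_DL h m hmodd (-q) p hodd' hpq'
      · have hp := one_le_sq_of_abs_lt hpq
        unfold NN
        have h5 : (x + 1 / 3) ^ 2 ≤ (p * (x + 1 / 3)) ^ 2 := by
          rw [mul_pow]
          nlinarith [sq_nonneg (x + 1 / 3)]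
        nlinarith [sq_nonneg (p * (y + m / 3) - ((-q : ℤ) : ℝ))]
    unfold NN at h1
    push_cast at h1
    linarith
  · rcases hcase with h1 | h1
    · refine ⟨0, Or.inr (by simp), ?_⟩
      have key := inv_key0 hs
      rw [key, ← mul_div_assoc]
      apply div_le_div_of_nonneg_right _ hs.le
      linarith
    · have hm0 : (m : ℝ) ≠ 0 := by
        intro h0
        rw [h0] at hm1
        norm_num at hm1
      refine ⟨-3 / m, ?_, ?_⟩
      · rcases hmR with hm | hm | hm <;> rw [hm]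
        · right; norm_num
        · right; norm_num
        · left; norm_num
      · have key : ((x + 1 / 3) / ((x + 1 / 3) ^ 2 + (y + m / 3) ^ 2)) ^ 2 +
            (-(y + m / 3) / ((x + 1 / 3) ^ 2 + (y + m / 3) ^ 2) - -3 / m) ^ 2 =
            9 * ((x + 1 / 3) ^ 2 + y ^ 2) / (m ^ 2 * ((x + 1 / 3) ^ 2 + (y + m / 3) ^ 2)) := by
          have h7 := inv_key (t := (m : ℝ) / 3) hs (by positivity)
          have h8 : (-3 : ℝ) / m = -1 / (m / 3) := by field_simp
          rw [h8, h7, show y + (m : ℝ) / 3 - m / 3 = y by ring]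
          rw [div_eq_div_iff (by positivity) (by positivity)]
          ring
        rw [key, ← mul_div_assoc]
        have h6 : 9 * ((x + 1 / 3) ^ 2 + y ^ 2) / (m ^ 2 * ((x + 1 / 3) ^ 2 + (y + m / 3) ^ 2)) ≤
          9 * ((x + 1 / 3) ^ 2 + y ^ 2) / (1 * ((x + 1 / 3) ^ 2 + (y + m / 3) ^ 2)) := by
          apply div_le_div_of_nonneg_left (by positivity) (by positivity)
          nlinarith
        refine h6.trans ?_
        rw [one_mul]
        apply div_le_div_of_nonneg_right _ hs.le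
        nlinarith

theorem stepB_coe_of_mul {b w v : ℂ} (h : (b + w) * v = 1) :
    stepB b (w : OnePoint ℂ) = (v : OnePoint ℂ) := by
  have h0 : b + w ≠ 0 := by
    intro h0
    rw [h0, zero_mul] at h
    exact zero_ne_one h
  have h1 : (b + w)⁻¹ = v := by
    rw [inv_eq_iff_eq_inv]
    exact eq_inv_of_mul_eq_one_left h
  unfold stepB
  rw [OnePoint.elim_some, if_neg h0, h1]

theorem stepB_coe {b w : ℂ} (h : b + w ≠ 0) :
    stepB b (w : OnePoint ℂ) = (((b + w)⁻¹ : ℂ) : OnePoint ℂ) := by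
  unfold stepB
  rw [OnePoint.elim_some, if_neg h]

theorem exists_stepB {b z : ℂ} {X Y : ℝ} (hX : (b + z).re = X) (hY : (b + z).im = Y)
    (h : 0 < X ^ 2 + Y ^ 2 ∧ DD (X / (X ^ 2 + Y ^ 2)) (-Y / (X ^ 2 + Y ^ 2))) :
    ∃ v : ℂ, stepB b (z : OnePoint ℂ) = (v : OnePoint ℂ) ∧ DD v.re v.im := by
  have h0 : b + z ≠ 0 := by
    intro h0
    rw [h0] at hX hY
    simp only [Complex.zero_re, Complex.zero_im] at hX hY
    rw [← hX, ← hY] at h
    norm_num at h
  refine ⟨(b + z)⁻¹, stepB_coe h0, ?_⟩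
  rw [Complex.inv_re, Complex.inv_im, Complex.normSq_apply, hX, hY]
  have h1 : X * X + Y * Y = X ^ 2 + Y ^ 2 := by ring
  rw [h1]
  exact h.2

/-- The set `{2i, -2i, 1/3 + i, 1/3 - i, 1/3 + i/3, -6}`. -/
def setB : Set ℂ := {2 * I, -2 * I, 1 / 3 + I, 1 / 3 - I, 1 / 3 + I / 3, -6}

theorem exists_stepB_of_mem {b z : ℂ} (hb : b ∈ setB) (hz : DD z.re z.im) :
    ∃ v : ℂ, stepB b (z : OnePoint ℂ) = (v : OnePoint ℂ) ∧ DD v.re v.im := by
  simp only [setB, Set.mem_insert_iff, Set.mem_singleton_iff] at hb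
  rcases hb with hb | hb | hb | hb | hb | hb
  · have h := DD_step_two hz 1 (Or.inl rfl)
    exact exists_stepB (by simp [hb]) (by simp [hb]; ring) h
  · have h := DD_step_two hz (-1) (Or.inr rfl)
    exact exists_stepB (by simp [hb]) (by simp [hb]; ring) h
  · have h := DD_step_third hz 3 (Or.inl rfl)
    exact exists_stepB (by simp [hb]; ring) (by simp [hb]; ring) h
  · have h := DD_step_third hz (-3) (Or.inr (Or.inl rfl))
    exact exists_stepB (by simp [hb]; ring) (by simp [hb]; ring) h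
  · have h := DD_step_third hz 1 (Or.inr (Or.inr rfl))
    exact exists_stepB (by simp [hb]; ring) (by simp [hb]; ring) h
  · have h := DD_step_six hz
    exact exists_stepB (by simp [hb]; ring) (by simp [hb]) h

theorem exists_valueB {l : List ℂ} (hl : ∀ b ∈ l, b ∈ setB) :
    ∃ z : ℂ, valueB l = (z : OnePoint ℂ) ∧ DD z.re z.im := by
  induction l with
  | nil => exact ⟨0, rfl, by simpa using DD_zero⟩
  | cons b l ih =>
    obtain ⟨z, hz1, hz2⟩ := ih (fun b' hb' => hl b' (List.mem_cons_of_mem _ hb'))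
    obtain ⟨v, hv1, hv2⟩ := exists_stepB_of_mem (hl b List.mem_cons_self) hz2
    refine ⟨v, ?_, hv2⟩
    have : valueB (b :: l) = stepB b (valueB l) := rfl
    rw [this, hz1, hv1]

theorem boundedValuesB_setB : BoundedValuesB setB := by
  refine ⟨9, fun l _ hl => ?_⟩
  obtain ⟨z, hz1, hz2⟩ := exists_valueB hl
  refine ⟨z, hz1, ?_⟩
  have h := DD_bound hz2
  have := Complex.norm_le_abs_re_add_abs_im z
  linarith [h.1, h.2]

end Pool.Agent.helper40
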