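import Mathlib
import Pool.Agent.helper40.InfWord
import Pool.Agent.helper40.CFDefs
import Pool.Agent.helper40.TypeBInvariant

namespace Pool.Agent.helper40

open Filter Topology Complex

theorem ne_zero_of_im_pos {z : ℂ} (h : 0 < z.im) : z ≠ 0 := by
  intro h0
  rw [h0] at h
  simp at h

/-- `k` letters `2 σ i`, where `σ = ±1`. -/
theorem run_replicate (s : ℝ) (hs : s = 1 ∨ s = -1) (k : ℕ) {η : ℂ} (hη : 0 < η.im) :
    List.foldr stepB ((-s * I + I / η : ℂ) : OnePoint ℂ) (List.replicate k (2 * s * I : ℂ)) =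
      ((-s * I + I / (η + k * s) : ℂ) : OnePoint ℂ) := by
  have hss : (s : ℂ) ^ 2 = 1 := by
    rcases hs with hs | hs <;> rw [hs] <;> norm_num
  induction k with
  | zero => simp
  | succ k ih =>
    rw [List.replicate_succ, List.foldr_cons, ih]
    apply stepB_coe_of_mul
    have h1 : (0 : ℝ) < (η + k * s : ℂ).im := by simpa using hη
    have h2 : (0 : ℝ) < (η + (k + 1 : ℕ) * s : ℂ).im := by simpa using hη
    have h1' := ne_zero_of_im_pos h1
    have h2' := ne_zero_of_im_pos h2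
    push_cast at h2' ⊢
    generalize hu : η + k * (s : ℂ) = u at h1'
    have hu2 : η + (k + 1) * (s : ℂ) = u + s := by rw [← hu]; ring
    rw [hu2] at h2' ⊢
    have hI : I ^ 2 = -1 := Complex.I_sq
    field_simp
    linear_combination (1 - (s : ℂ) ^ 2 - s ^ 2 * u ^ 2 - s ^ 3 * u) * hI + (1 + u ^ 2 + s * u) * hss

/-- The block with `m` inner letters. -/
noncomputable def blk (s : ℝ) (m : ℕ) : List ℂ :=
  [-6, 1 / 3 - I, 2 * I, 1 / 3 + I / 3, -6, 1 / 3 + s * I] ++
    (List.replicate m (2 * s * I : ℂ) ++ [1 / 3 + s * I])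

theorem run_blk (s : ℝ) (hs : s = 1 ∨ s = -1) (m : ℕ) {ζ : ℂ} (hζ : 0 < ζ.im) :
    List.foldr stepB ((-1 / 3 + I / ζ : ℂ) : OnePoint ℂ) (blk s m) =
      ((-1 / 3 + I / ((ζ + (m + 1) * s + 6 * I - 6) / 9 + 6 * I) : ℂ) : OnePoint ℂ) := by
  have hss : (s : ℂ) ^ 2 = 1 := by
    rcases hs with hs | hs <;> rw [hs] <;> norm_num
  have hs0 : (s : ℂ) ≠ 0 := by
    intro h0
    rw [h0] at hss
    norm_num at hss
  have hI : I ^ 2 = -1 := Complex.I_sq
  have hI0 : I ≠ 0 := Complex.I_ne_zero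
  unfold blk
  rw [List.foldr_append, List.foldr_append]
  -- the innermost letter
  have e1 : List.foldr stepB ((-1 / 3 + I / ζ : ℂ) : OnePoint ℂ) [1 / 3 + s * I] =
      ((-s * I + I / (ζ + s) : ℂ) : OnePoint ℂ) := by
    rw [List.foldr_cons, List.foldr_nil]
    apply stepB_coe_of_mul
    have h1 := ne_zero_of_im_pos hζ
    have h2 : ζ + s ≠ 0 := ne_zero_of_im_pos (by simpa using hζ)
    field_simp
    linear_combination 3 * (1 - (s : ℂ) ^ 2 - s ^ 2 * ζ ^ 2 - s ^ 3 * ζ) * hI +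
      3 * (1 + ζ ^ 2 + s * ζ) * hss
  rw [e1]
  have h1 : 0 < (ζ + s).im := by simpa using hζ
  rw [run_replicate s hs m h1]
  have h2 : 0 < (ζ + s + m * s).im := by simpa using hζ
  generalize hη : ζ + s + m * s = η at h2
  have hη' : ζ + (m + 1) * s = η := by rw [← hη]; ring
  rw [hη']
  simp only [List.foldr_cons, List.foldr_nil]
  have h2' := ne_zero_of_im_pos h2
  have h3 : 0 < (η + 3 * I).im := by
    simp
    linarith
  have h3' := ne_zero_of_im_pos h3
  have h4 : 0 < (η + 6 * I).im := by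
    simp
    linarith
  have h4' := ne_zero_of_im_pos h4
  have e2 : stepB (1 / 3 + s * I) ((-s * I + I / η : ℂ) : OnePoint ℂ) =
      ((3 * η / (η + 3 * I) : ℂ) : OnePoint ℂ) := by
    apply stepB_coe_of_mul
    field_simp
    ring
  have e3 : stepB (-6) ((3 * η / (η + 3 * I) : ℂ) : OnePoint ℂ) =
      ((-1 / 3 + I / (η + 6 * I) : ℂ) : OnePoint ℂ) := by
    apply stepB_coe_of_mul
    field_simp
    ring
  rw [e2, e3]
  generalize hξ : η + 6 * I = ξ at h4 h4'
  have e4 : stepB (1 / 3 + I / 3) ((-1 / 3 + I / ξ : ℂ) : OnePoint ℂ) =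
      ((-3 * I + 9 * I / (ξ + 3) : ℂ) : OnePoint ℂ) := by
    have h5 : ξ + 3 ≠ 0 := ne_zero_of_im_pos (by simpa using h4)
    apply stepB_coe_of_mul
    field_simp
    linear_combination (-9 * ξ - 3 * ξ ^ 2) * hI
  have h6 : 0 < (ξ - 6).im := by simpa using h4
  have h6' := ne_zero_of_im_pos h6
  have e5 : stepB (2 * I) ((-3 * I + 9 * I / (ξ + 3) : ℂ) : OnePoint ℂ) =
      ((I + 9 * I / (ξ - 6) : ℂ) : OnePoint ℂ) := by
    have h5 : ξ + 3 ≠ 0 := ne_zero_of_im_pos (by simpa using h4)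
    apply stepB_coe_of_mul
    field_simp
    linear_combination (18 + 3 * ξ - ξ ^ 2) * hI
  rw [e4, e5]
  generalize hν : (ξ - 6) / 9 = ν
  have hν' : ξ - 6 = 9 * ν := by rw [← hν]; ring
  have h7 : 0 < ν.im := by
    rw [hν'] at h6
    simpa using h6
  rw [hν']
  have h7' := ne_zero_of_im_pos h7
  have h8' : ν + 3 * I ≠ 0 := ne_zero_of_im_pos (by
    simp
    linarith)
  have h9' : ν + 6 * I ≠ 0 := ne_zero_of_im_pos (by
    simp
    linarith)
  have e6 : stepB (1 / 3 - I) ((I + 9 * I / (9 * ν) : ℂ) : OnePoint ℂ) =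
      ((3 * ν / (ν + 3 * I) : ℂ) : OnePoint ℂ) := by
    apply stepB_coe_of_mul
    field_simp
    ring
  have e7 : stepB (-6) ((3 * ν / (ν + 3 * I) : ℂ) : OnePoint ℂ) =
      ((-1 / 3 + I / (ν + 6 * I) : ℂ) : OnePoint ℂ) := by
    apply stepB_coe_of_mul
    field_simp
    ring
  rw [e6, e7]

/-- The blocks of the divergent continued fraction. -/
noncomputable def blocks (n : ℕ) : List ℂ := blk ((-1) ^ (n + 1)) (9 ^ (n + 1) - 1)

theorem blocks_ne_nil (n : ℕ) : blocks n ≠ [] := by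
  simp [blocks, blk]

theorem sign_cases (n : ℕ) : ((-1 : ℝ)) ^ n = 1 ∨ ((-1 : ℝ)) ^ n = -1 := neg_one_pow_eq_or ℝ n

theorem mem_blk {s : ℝ} (hs : s = 1 ∨ s = -1) (m : ℕ) {b : ℂ} (hb : b ∈ blk s m) : b ∈ setB := by
  simp only [blk, List.mem_append, List.mem_cons, List.not_mem_nil, or_false,
    List.mem_replicate] at hb
  simp only [setB, Set.mem_insert_iff, Set.mem_singleton_iff]
  rcases hs with hs | hs <;> subst hs
  · rcases hb with (hb | hb | hb | hb | hb | hb) | ⟨_, hb⟩ | hb <;> subst hb <;> simp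
  · rcases hb with (hb | hb | hb | hb | hb | hb) | ⟨_, hb⟩ | hb <;> subst hb <;>
      simp [sub_eq_add_neg]

/-- The coordinate `ζ` after the first `n` blocks. -/
noncomputable def zetaN (n : ℕ) (ζ : ℂ) : ℂ :=
  (1 / 9) ^ n * ζ + ((-1) ^ n - 1) / 2 + 9 / 8 * ((20 * I - 2) / 3) * (1 - (1 / 9) ^ n)

theorem run_wordUpTo (n : ℕ) : ∀ {ζ : ℂ}, 0 < ζ.im →
    List.foldr stepB ((-1 / 3 + I / ζ : ℂ) : OnePoint ℂ) (wordUpTo blocks n) =
      ((-1 / 3 + I / zetaN n ζ : ℂ) : OnePoint ℂ) := by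
  induction n with
  | zero =>
    intro ζ _
    simp [wordUpTo, zetaN]
  | succ n ih =>
    intro ζ hζ
    have h1 : wordUpTo blocks (n + 1) = wordUpTo blocks n ++ blocks n := rfl
    have hbn : blocks n = blk ((-1) ^ (n + 1)) (9 ^ (n + 1) - 1) := rfl
    rw [h1, List.foldr_append, hbn]
    have h2 := run_blk ((-1) ^ (n + 1)) (sign_cases (n + 1)) (9 ^ (n + 1) - 1) hζ
    have h3 : ((9 ^ (n + 1) - 1 : ℕ) : ℂ) + 1 = 9 ^ (n + 1) := by
      have : 1 ≤ 9 ^ (n + 1) := Nat.one_le_pow _ _ (by norm_num)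
      push_cast [Nat.cast_sub this]
      ring
    rw [h3] at h2
    push_cast at h2
    rw [h2, ih]
    · congr 3
      unfold zetaN
      rw [show ((-1 : ℂ)) ^ (n + 1) = -(-1) ^ n by ring, show (9 : ℂ) ^ (n + 1) = 9 * 9 ^ n by ring,
        show (1 / 9 : ℂ) ^ (n + 1) = 1 / 9 * (1 / 9) ^ n by ring]
      have h4 : (1 / 9 : ℂ) ^ n * 9 ^ n = 1 := by
        rw [← mul_pow]
        norm_num
      linear_combination (-(-1 : ℂ) ^ n) * h4
    · have h5 : (((ζ + 9 ^ (n + 1) * (-1) ^ (n + 1) + 6 * I - 6) / 9 + 6 * I : ℂ)) =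
        (((ζ + ((9 ^ (n + 1) * (-1) ^ (n + 1) - 6 : ℝ) : ℂ) + 6 * I) / 9 + 6 * I : ℂ)) := by
        push_cast
        ring
      rw [h5]
      simp only [Complex.add_im, Complex.div_ofNat_im, Complex.ofReal_im, Complex.mul_im,
        Complex.re_ofNat, Complex.im_ofNat, Complex.I_re, Complex.I_im]
      linarith

theorem valueB_wordUpTo (n : ℕ) :
    valueB (wordUpTo blocks n) = ((-1 / 3 + I / zetaN n (3 * I) : ℂ) : OnePoint ℂ) := by
  rw [← run_wordUpTo n (by simp)]
  unfold valueB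
  congr 2
  field_simp
  ring

theorem not_convergenceSetB_setB : ¬ ConvergenceSetB setB := by
  intro h
  set b : ℕ → ℂ := infWord blocks 0 with hb
  obtain ⟨L, hL⟩ := h b (fun n => by
    obtain ⟨m, hm⟩ := infWord_mem blocks blocks_ne_nil 0 n
    exact mem_blk (sign_cases (m + 1)) _ hm)
  have h1 : Tendsto (fun n => valueB (wordUpTo blocks n)) atTop (𝓝 (L : OnePoint ℂ)) := by
    have h2 := hL.comp (length_wordUpTo_tendsto blocks blocks_ne_nil)
    refine h2.congr (fun n => ?_)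
    simp only [Function.comp_apply]
    rw [hb, ofFn_infWord blocks blocks_ne_nil 0 n]
  have h3 : Tendsto (fun n => (-1 / 3 + I / zetaN n (3 * I) : ℂ)) atTop (𝓝 L) := by
    rw [OnePoint.isOpenEmbedding_coe.tendsto_nhds_iff]
    refine h1.congr (fun n => ?_)
    rw [valueB_wordUpTo]
    rfl
  have hpow : Tendsto (fun n : ℕ => (1 / 9 : ℂ) ^ n) atTop (𝓝 0) := by
    apply tendsto_pow_atTop_nhds_zero_of_norm_lt_one
    norm_num
  have heven : Tendsto (fun n : ℕ => 2 * n) atTop atTop :=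
    tendsto_atTop_mono (fun n => by simp only [id_eq]; omega) tendsto_id
  have hodd : Tendsto (fun n : ℕ => 2 * n + 1) atTop atTop :=
    tendsto_atTop_mono (fun n => by simp only [id_eq]; omega) tendsto_id
  have hne1 : (0 + 0 + 9 / 8 * ((20 * I - 2) / 3) * (1 - 0) : ℂ) ≠ 0 := by
    intro h0
    have := congrArg Complex.im h0
    norm_num at this
  have hne2 : (0 + -1 + 9 / 8 * ((20 * I - 2) / 3) * (1 - 0) : ℂ) ≠ 0 := by
    intro h0
    have := congrArg Complex.im h0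
    norm_num at this
  have h4 : Tendsto (fun n => (-1 / 3 + I / zetaN (2 * n) (3 * I) : ℂ)) atTop
      (𝓝 (-1 / 3 + I / (0 + 0 + 9 / 8 * ((20 * I - 2) / 3) * (1 - 0)))) := by
    apply tendsto_const_nhds.add
    apply Tendsto.div tendsto_const_nhds _ hne1
    unfold zetaN
    have hp := hpow.comp heven
    refine Tendsto.add (Tendsto.add ?_ ?_) (tendsto_const_nhds.mul (tendsto_const_nhds.sub hp))
    · have := hp.mul_const (3 * I)
      rwa [zero_mul] at this
    · have : (fun n : ℕ => (((-1 : ℂ)) ^ (2 * n) - 1) / 2) = fun _ => 0 := by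
        funext n
        rw [pow_mul]
        norm_num
      rw [this]
      exact tendsto_const_nhds
  have h5 : Tendsto (fun n => (-1 / 3 + I / zetaN (2 * n + 1) (3 * I) : ℂ)) atTop
      (𝓝 (-1 / 3 + I / (0 + -1 + 9 / 8 * ((20 * I - 2) / 3) * (1 - 0)))) := by
    apply tendsto_const_nhds.add
    apply Tendsto.div tendsto_const_nhds _ hne2
    unfold zetaN
    have hp := hpow.comp hodd
    refine Tendsto.add (Tendsto.add ?_ ?_) (tendsto_const_nhds.mul (tendsto_const_nhds.sub hp))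
    · have := hp.mul_const (3 * I)
      rwa [zero_mul] at this
    · have : (fun n : ℕ => (((-1 : ℂ)) ^ (2 * n + 1) - 1) / 2) = fun _ => -1 := by
        funext n
        rw [pow_succ, pow_mul]
        norm_num
      rw [this]
      exact tendsto_const_nhds
  have h6 := tendsto_nhds_unique h4 (h3.comp heven)
  have h7 := tendsto_nhds_unique h5 (h3.comp hodd)
  rw [← h7] at h6
  have h8 : I / (0 + 0 + 9 / 8 * ((20 * I - 2) / 3) * (1 - 0)) =
    I / (0 + -1 + 9 / 8 * ((20 * I - 2) / 3) * (1 - 0)) := by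
    linear_combination h6
  rw [div_eq_div_iff hne1 hne2] at h8
  have h9 := mul_left_cancel₀ Complex.I_ne_zero h8
  have h10 := congrArg Complex.re h9
  norm_num at h10

end Pool.Agent.helper40
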